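import Pool.Graph.R_pool_sql_team_39128cda.H.MP_4c8440_an.C

set_option autoImplicit false
open Set Filter Topology Real Metric
open scoped ContDiff

namespace Pool.Agent.HN4C
open Pool.Agent.H.MP_4c8440_an

lemma algc {β ξ η A B p q G1 G2 χ μ m n c T1 T2 : ℝ} (h1 : 0 ≤ G2) (h2 : 0 ≤ χ) (h3 : 0 ≤ μ * n)
    (h4 : 0 ≤ G1) (hc : 0 < c) (e : ξ = χ + μ ^ 2 + c)
    (t1 : -A - β * p * η + G1 * (2 * (ξ * A + η * B)) + 2 * μ * m * p = T1)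
    (t2 : B - β * q * η + G1 * (2 * (η * A - ξ * B)) + 2 * μ * m * q = T2) :
    0 ≤ -2 * β * (p * B + q * A) + β ^ 2 * (p ^ 2 + q ^ 2) * ξ + 4 * G2 * (ξ ^ 2 + η ^ 2) * (A ^ 2 + B ^ 2) +
      4 * G1 * (A ^ 2 + B ^ 2) + 2 * (m ^ 2 + μ * n) * (p ^ 2 + q ^ 2) + (T1 ^ 2 + T2 ^ 2) / c := by
  have k : 0 < ξ ^ 2 + η ^ 2 := by
    have : 0 < ξ := by nlinarith [sq_nonneg μ]
    positivity
  refine le_of_mul_le_mul_left ?_ (mul_pos hc (pow_pos k 2))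
  set N := ξ ^ 2 + η ^ 2 with hN
  set U := ξ * A + η * B with hU
  set V := ξ * B - η * A with hV
  have : c * N ^ 2 * (-2 * β * (p * B + q * A) + β ^ 2 * (p ^ 2 + q ^ 2) * ξ + 4 * G2 * N * (A ^ 2 + B ^ 2) +
        4 * G1 * (A ^ 2 + B ^ 2) + 2 * (m ^ 2 + μ * n) * (p ^ 2 + q ^ 2) + (T1 ^ 2 + T2 ^ 2) / c) =
        c * (χ * ((U - β * N * q) ^ 2 + (V - β * N * p) ^ 2) +
        ((μ * (U - β * N * q) - m * N * p) ^ 2 + (μ * (V - β * N * p) + m * N * q) ^ 2) +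
        ((μ * U - m * N * p) ^ 2 + (μ * V + m * N * q) ^ 2) + (4 * N ^ 2 * G2 + χ) * (U ^ 2 + V ^ 2) +
        2 * (μ * n) * N ^ 2 * (p ^ 2 + q ^ 2)) + c ^ 2 * ((U - β * N * q) ^ 2 + (V - β * N * p) ^ 2) +
        ((c * U + N * T1) ^ 2 + (c * V - N * T2) ^ 2) := by
      have e' : χ = ξ - μ ^ 2 - c := by linarith
      rw [mul_add (c * N ^ 2), show c * N ^ 2 * ((T1 ^ 2 + T2 ^ 2) / c) = N ^ 2 * (T1 ^ 2 + T2 ^ 2) by
        field_simp]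
      simp only [hN, hU, hV, e']
      linear_combination (2 * c * (ξ ^ 2 + η ^ 2) * (ξ * A + η * B)) * t1 -
        (2 * c * (ξ ^ 2 + η ^ 2) * (ξ * B - η * A)) * t2
  rw [this, mul_zero]; positivity

lemma levic {β x y T a b τ σ κ c T1 T2 : ℝ} (T0 : 0 < T) (hc : 0 < c) (e : r β x y T = -c)
    (t1 : r1 β x y T a b τ = T1)
    (t2 : r1 β x y T (-b) a σ = T2) (k : τ ^ 2 + σ ^ 2 = 2 * κ * T) :
    0 ≤ r2 β x y T a b τ κ + r2 β x y T (-b) a σ κ + (T1 ^ 2 + T2 ^ 2) / c := by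
  simp only [r, r1, r2] at *
  have cs := cos_sq_add_sin_sq (β * log T)
  generalize cos (β * log T) = C at *
  generalize sin (β * log T) = S at *
  have n1 := gn (x ^ 2 + y ^ 2 - 1)
  have n2 := gn (T + T⁻¹ - 4)
  generalize g (x ^ 2 + y ^ 2 - 1) = χ at *
  generalize g1 (x ^ 2 + y ^ 2 - 1) = G1 at *
  generalize g2 (x ^ 2 + y ^ 2 - 1) = G2 at *
  generalize g (T + T⁻¹ - 4) = μ at *
  generalize g1 (T + T⁻¹ - 4) = μ1 at *
  generalize g2 (T + T⁻¹ - 4) = μ2 at *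
  obtain ⟨p, rfl⟩ : ∃ p, τ = p * T := ⟨τ / T, by field_simp⟩
  obtain ⟨q, rfl⟩ : ∃ q, σ = q * T := ⟨σ / T, by field_simp⟩
  obtain rfl : κ = (p ^ 2 + q ^ 2) * T / 2 := by field_simp; nlinarith
  have e1 (p : ℝ) : p * T / T = p := by field_simp
  have e2 (p : ℝ) : p * T - p * T / T ^ 2 = p * (T - T⁻¹) := by field_simp
  have e3 : (p ^ 2 + q ^ 2) * T / 2 / T = (p ^ 2 + q ^ 2) / 2 := by field_simp
  simp only [e1, e2, e3] at *
  have := algc (β := β) (ξ := x * C + y * S) (η := y * C - x * S) (A := a * C + b * S) (B := b * C - a * S) (p := p)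
    (q := q) (m := μ1 * (T - T⁻¹)) (n := μ2 * (T - T⁻¹) ^ 2 + μ1 * (T + T⁻¹)) (T1 := T1) (T2 := T2) n1.2.2.1 n1.1
    (mul_nonneg n2.1 (by have := n2.2.1; have := n2.2.2.1; positivity)) n1.2.1 hc (by linarith)
    (by linear_combination t1 + 2 * G1 * (x * a + y * b) * cs)
    (by linear_combination t2 + 2 * G1 * (y * a - x * b) * cs)
  convert this using 1
  linear_combination (-4 * G1 * (a ^ 2 + b ^ 2) - 4 * G2 * (x ^ 2 + y ^ 2) * (a ^ 2 + b ^ 2) * (C ^ 2 + S ^ 2 + 1)) * cs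

end Pool.Agent.HN4C
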