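import Pool.Agent.HN4C.A

set_option autoImplicit false
open Set Filter Topology Real Metric
open scoped ContDiff

namespace Pool.Agent.HN4C
open Pool.Agent.H.MP_4c8440_an

abbrev EN (k : ℕ) := Fin (k + 2) → ℂ

variable {k : ℕ}

/-- projection to the first two coordinates -/
noncomputable def pr : EN k →L[ℂ] E := ContinuousLinearMap.pi ![ContinuousLinearMap.proj 0, ContinuousLinearMap.proj 1]

lemma pr0 (p : EN k) : pr p 0 = p 0 := rfl
lemma pr1 (p : EN k) : pr p 1 = p 1 := rfl

/-- the remaining coordinates -/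
def uu (p : EN k) (j : Fin k) : ℂ := p j.succ.succ

noncomputable def S (p : EN k) : ℝ := ∑ j, ((uu p j).re ^ 2 + (uu p j).im ^ 2)

lemma S_nonneg (p : EN k) : 0 ≤ S p := Finset.sum_nonneg fun _ _ => by positivity

lemma S_zero {p : EN k} (h : S p = 0) (j : Fin k) : uu p j = 0 := by
  have := (Finset.sum_eq_zero_iff_of_nonneg (fun j _ => by positivity)).1 h j (Finset.mem_univ j)
  apply Complex.ext
  · simp; nlinarith [sq_nonneg (uu p j).re, sq_nonneg (uu p j).im]
  · simp; nlinarith [sq_nonneg (uu p j).re, sq_nonneg (uu p j).im]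

noncomputable def ρN (p : EN k) : ℝ := ρ (pr p) + S p

def ΩN : Set (EN k) := {p | ρN p < 0}

lemma Sc : ContDiff ℝ ∞ (S : EN k → ℝ) := by
  refine ContDiff.sum fun j _ => ?_
  have h1 : ContDiff ℝ ∞ fun p : EN k => (uu p j).re :=
    Complex.reCLM.contDiff.comp (contDiff_apply ℝ ℂ j.succ.succ)
  have h2 : ContDiff ℝ ∞ fun p : EN k => (uu p j).im :=
    Complex.imCLM.contDiff.comp (contDiff_apply ℝ ℂ j.succ.succ)
  exact (h1.pow 2).add (h2.pow 2)

lemma ρNc : ContDiff ℝ ∞ (ρN : EN k → ℝ) :=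
  (ρc.comp ((pr (k := k)).restrictScalars ℝ).contDiff).add Sc

lemma ΩNo : IsOpen (ΩN : Set (EN k)) := isOpen_lt ρNc.continuous continuous_const

lemma prΩ {p : EN k} (h : p ∈ ΩN) : pr p ∈ Ω := by
  have h1 : ρ (pr p) + S p < 0 := h
  have h2 := S_nonneg p
  exact show ρ (pr p) < 0 by linarith

lemma memN {p : EN k} : p ∈ ΩN ↔ 0 < T (pr p) ∧ ρ0 (pr p) + S p < 0 := by
  constructor
  · intro h
    have h1 := mem.1 (prΩ h)
    refine ⟨h1.1, ?_⟩
    have h2 : ρ (pr p) + S p < 0 := h
    rwa [ρe (by linarith [(T7 h1.1 (bd h1.2.le).2.1).1])] at h2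
  · rintro ⟨a, b⟩
    have h2 : ρ0 (pr p) < 0 := by linarith [S_nonneg p]
    change ρ (pr p) + S p < 0
    rwa [ρe (by linarith [(T7 a (bd h2.le).2.1).1])]

lemma prC : Continuous (pr : EN k → E) := (pr (k := k)).continuous

lemma frN {p : EN k} (h : p ∈ frontier ΩN) : 0 < T (pr p) ∧ ρ0 (pr p) = -S p ∧ ρ =ᶠ[𝓝 (pr p)] ρ0 := by
  have t : 1 / 7 ≤ T (pr p) := closure_minimal (t := {p : EN k | 1 / 7 ≤ T (pr p)})
    (fun q hq => by
      have hq' := mem.1 (prΩ hq)
      exact (T7 hq'.1 (bd hq'.2.le).2.1).1)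
    (isClosed_le continuous_const (Tc.continuous.comp prC)) h.1
  have e : ρ (pr p) + S p = 0 := frontier_lt_subset_eq ρNc.continuous continuous_const h
  refine ⟨by linarith, ?_, ?_⟩
  · have := ρe (show 1 / 10 ≤ T (pr p) by linarith)
    linarith
  · exact (continuousAt_const.eventually_lt
      Tc.continuous.continuousAt (show 1 / 10 < T (pr p) by linarith)).mono fun q hq => ρe hq.le

/-- derivative of `S` along `v` -/
noncomputable def S1 (p v : EN k) : ℝ :=
  ∑ j, 2 * ((uu p j).re * (uu v j).re + (uu p j).im * (uu v j).im)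

lemma linN {G : Type} [NormedAddCommGroup G] [NormedSpace ℝ G] {F : G → ℝ} {p v : G} (hF : ContDiffAt ℝ 2 F p)
    {c1 : ℝ → ℝ} {c2 : ℝ}
    (h1 : ∀ᶠ t in 𝓝 (0 : ℝ), HasDerivAt (fun t : ℝ => F (p + t • v)) (c1 t) t) (h2 : HasDerivAt c1 c2 0) :
    fderiv ℝ F p v = c1 0 ∧ iteratedFDeriv ℝ 2 F p ![v, v] = c2 := by
  have l (t : ℝ) : HasDerivAt (fun t : ℝ => p + t • v) v t := by
    simpa using ((hasDerivAt_id t).smul_const v).const_add p
  have tp : Tendsto (fun t : ℝ => p + t • v) (𝓝 0) (𝓝 p) := Continuous.tendsto' (by fun_prop) _ _ (by simp)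
  have e : (fun t : ℝ => fderiv ℝ F (p + t • v) v) =ᶠ[𝓝 0] c1 := by
    filter_upwards [h1, tp.eventually (hF.eventually (by simp))] with t a b
    exact ((b.differentiableAt (by simp)).hasFDerivAt.comp_hasDerivAt t (l t)).unique a
  refine ⟨by simpa using e.self_of_nhds, ?_⟩
  have hd : HasFDerivAt (fderiv ℝ F) (fderiv ℝ (fderiv ℝ F) p) (p + (0 : ℝ) • v) := by
    simpa using ((hF.fderiv_right (m := 1) (by norm_num)).differentiableAt (by norm_num)).hasFDerivAt
  have := ((hd.comp_hasDerivAt 0 (l 0)).clm_apply (hasDerivAt_const 0 v)).unique (h2.congr_of_eventuallyEq e)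
  simpa [iteratedFDeriv_two_apply] using this

/-- second derivative of a smooth function along a line -/
lemma linR {G : Type} [NormedAddCommGroup G] [NormedSpace ℝ G] {F : G → ℝ} (hF : ContDiff ℝ ∞ F) (q u : G) :
    (∀ t : ℝ, HasDerivAt (fun t : ℝ => F (q + t • u)) (fderiv ℝ F (q + t • u) u) t) ∧
    HasDerivAt (fun t : ℝ => fderiv ℝ F (q + t • u) u) (iteratedFDeriv ℝ 2 F q ![u, u]) 0 := by
  have l (t : ℝ) : HasDerivAt (fun t : ℝ => q + t • u) u t := by
    simpa using ((hasDerivAt_id t).smul_const u).const_add q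
  have hF2 : ContDiff ℝ 2 F := hF.of_le (WithTop.coe_le_coe.2 le_top)
  refine ⟨fun t => ((hF.differentiable (by simp)) _).hasFDerivAt.comp_hasDerivAt t (l t), ?_⟩
  have hd : HasFDerivAt (fderiv ℝ F) (fderiv ℝ (fderiv ℝ F) q) (q + (0 : ℝ) • u) := by
    simpa using ((hF2.contDiffAt.fderiv_right (m := 1) (by norm_num)).differentiableAt (by norm_num)).hasFDerivAt
  have := (hd.comp_hasDerivAt 0 (l 0)).clm_apply (hasDerivAt_const 0 u)
  simpa [iteratedFDeriv_two_apply] using this

lemma S_der (p v : EN k) : (∀ t : ℝ, HasDerivAt (fun t : ℝ => S (p + t • v)) (S1 (p + t • v) v) t) ∧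
    HasDerivAt (fun t : ℝ => S1 (p + t • v) v) (2 * S v) 0 := by
  have a (x a t : ℝ) : HasDerivAt (fun t => x + t * a) a t := by
    simpa using ((hasDerivAt_id t).mul_const a).const_add x
  constructor
  · intro t
    have : (fun t : ℝ => S (p + t • v)) = fun t : ℝ => ∑ j, (((uu p j).re + t * (uu v j).re) ^ 2 +
        ((uu p j).im + t * (uu v j).im) ^ 2) := by
      ext t
      simp [S, uu]
    rw [this]
    refine (HasDerivAt.fun_sum fun j _ => ((a (uu p j).re (uu v j).re t).pow 2).add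
      ((a (uu p j).im (uu v j).im t).pow 2)).congr_deriv ?_
    simp only [S1, uu]
    refine Finset.sum_congr rfl fun j _ => ?_
    simp
    ring
  · have : (fun t : ℝ => S1 (p + t • v) v) = fun t : ℝ => ∑ j, 2 * (((uu p j).re + t * (uu v j).re) * (uu v j).re +
        ((uu p j).im + t * (uu v j).im) * (uu v j).im) := by
      ext t
      simp [S1, uu]
    rw [this]
    refine (HasDerivAt.fun_sum fun j _ => (((a (uu p j).re (uu v j).re 0).mul_const _).add
      ((a (uu p j).im (uu v j).im 0).mul_const _)).const_mul 2).congr_deriv ?_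
    rw [S, Finset.mul_sum]
    refine Finset.sum_congr rfl fun j _ => ?_
    ring

lemma derN (p v : EN k) :
    fderiv ℝ ρN p v = fderiv ℝ ρ (pr p) (pr v) + S1 p v ∧
    iteratedFDeriv ℝ 2 ρN p ![v, v] = iteratedFDeriv ℝ 2 ρ (pr p) ![pr v, pr v] + 2 * S v := by
  obtain ⟨a1, a2⟩ := linR ρc (pr p) (pr v)
  obtain ⟨b1, b2⟩ := S_der p v
  have := linN (F := (ρN : EN k → ℝ)) (p := p) (v := v) (ρNc.contDiffAt.of_le (WithTop.coe_le_coe.2 le_top))
    (c1 := fun t => fderiv ℝ ρ (pr p + t • pr v) (pr v) + S1 (p + t • v) v)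
    (c2 := iteratedFDeriv ℝ 2 ρ (pr p) ![pr v, pr v] + 2 * S v)
    (Eventually.of_forall fun t => by
      have h := (a1 t).add (b1 t)
      have e : (fun t : ℝ => ρN (p + t • v)) = (fun t : ℝ => ρ (pr p + t • pr v)) + fun t : ℝ => S (p + t • v) := by
        ext t
        simp [ρN]
      rw [e]
      exact h) (a2.add b2)
  simpa using this

/-- Cauchy-Schwarz -/
lemma csS (p v : EN k) : (S1 p v) ^ 2 + (S1 p (Complex.I • v)) ^ 2 ≤ 4 * (S p * S v) := by
  have h1 : S1 p v = 2 * (∑ j, (starRingEnd ℂ) (uu p j) * uu v j).re := by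
    rw [S1, Complex.re_sum, Finset.mul_sum]
    refine Finset.sum_congr rfl fun j _ => ?_
    simp
  have h2 : S1 p (Complex.I • v) = -(2 * (∑ j, (starRingEnd ℂ) (uu p j) * uu v j).im) := by
    rw [S1, Complex.im_sum, Finset.mul_sum, ← Finset.sum_neg_distrib]
    refine Finset.sum_congr rfl fun j _ => ?_
    simp [uu]
    ring
  have h3 : ‖∑ j, (starRingEnd ℂ) (uu p j) * uu v j‖ ^ 2 ≤ S p * S v := by
    have h4 : ‖∑ j, (starRingEnd ℂ) (uu p j) * uu v j‖ ≤ ∑ j, ‖uu p j‖ * ‖uu v j‖ := by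
      refine (norm_sum_le _ _).trans (le_of_eq (Finset.sum_congr rfl fun j _ => ?_))
      rw [norm_mul, RCLike.norm_conj]
    have h5 := Finset.sum_mul_sq_le_sq_mul_sq Finset.univ (fun j => ‖uu p j‖) (fun j => ‖uu v j‖)
    have h6 (q : EN k) : S q = ∑ j, ‖uu q j‖ ^ 2 := by
      refine Finset.sum_congr rfl fun j _ => ?_
      rw [Complex.sq_norm, Complex.normSq_apply]; ring
    rw [h6, h6]
    exact (pow_le_pow_left₀ (norm_nonneg _) h4 2).trans h5
  rw [Complex.sq_norm, Complex.normSq_apply] at h3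
  rw [h1, h2]
  nlinarith

lemma S_I (v : EN k) : S (Complex.I • v) = S v := by
  refine Finset.sum_congr rfl fun j _ => ?_
  simp [uu]
  ring

lemma gradN (p : EN k) (h : p ∈ frontier ΩN) : fderiv ℝ ρN p ≠ 0 := fun c => by
  obtain ⟨a, b, d⟩ := frN h
  have hd (v : EN k) : fderiv ℝ ρ0 (pr p) (pr v) + S1 p v = 0 := by
    have := (derN p v).1
    rw [c, d.fderiv_eq] at this
    simpa using this.symm
  -- the remaining coordinates vanish
  have hS : S p = 0 := by
    have h1 := hd (fun i => if i = 0 then 0 else if i = 1 then 0 else p i)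
    have h2 : pr (k := k) (fun i => if i = 0 then 0 else if i = 1 then 0 else p i) = 0 := by
      ext i
      fin_cases i
      · simp [pr]
      · simp [pr]
    have h3 : S1 p (fun i => if i = 0 then 0 else if i = 1 then 0 else p i) = 2 * S p := by
      rw [S1, S, Finset.mul_sum]
      refine Finset.sum_congr rfl fun j _ => ?_
      have : uu (k := k) (fun i => if i = 0 then 0 else if i = 1 then 0 else p i) j = uu p j := by
        simp only [uu]
        rw [if_neg (Fin.succ_ne_zero _), if_neg (by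
          intro e
          have := congrArg Fin.val e
          simp at this)]
      rw [this]; ring
    rw [h2, h3] at h1
    simpa using h1
  have hS1 (v : EN k) : S1 p v = 0 := Finset.sum_eq_zero fun j _ => by
    rw [S_zero hS j]; simp
  have hv (w : E) : fderiv ℝ ρ0 (pr p) w = 0 := by
    have h1 := hd (fun i => if i = 0 then w 0 else if i = 1 then w 1 else 0)
    have h2 : pr (k := k) (fun i => if i = 0 then w 0 else if i = 1 then w 1 else 0) = w := by
      ext i
      fin_cases i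
      · simp [pr]
      · simp [pr]
    rw [h2, hS1, add_zero] at h1
    exact h1
  rw [hS, neg_zero] at b
  refine grad a b (fun x y => ?_) ?_
  · simpa [hv] using (der a.ne' ![⟨x, y⟩, 0]).1.symm
  · simpa [hv, T, sq] using (der a.ne' ![0, pr p 1]).1.symm

lemma leviN (p : EN k) (h : p ∈ frontier ΩN) (v : EN k) (t1 : fderiv ℝ ρN p v = 0)
    (t2 : fderiv ℝ ρN p (Complex.I • v) = 0) :
    0 ≤ iteratedFDeriv ℝ 2 ρN p ![v, v] + iteratedFDeriv ℝ 2 ρN p ![Complex.I • v, Complex.I • v] := by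
  obtain ⟨a, b, d⟩ := frN h
  rw [(derN p v).2, (derN p _).2, S_I]
  rw [(derN p v).1, d.fderiv_eq, (der a.ne' _).1] at t1
  rw [(derN p _).1, d.fderiv_eq, (der a.ne' _).1] at t2
  rw [(d.iteratedFDeriv ℝ 2).self_of_nhds, (der a.ne' _).2, (der a.ne' _).2]
  have hcs := csS p v
  rw [map_smul] at *
  simp only [Pi.smul_apply, smul_eq_mul, Complex.I_mul_re, Complex.I_mul_im, neg_sq,
    add_comm ((pr v 1).im ^ 2)] at *
  have hk : (2 * ((pr p 1).re * (pr v 1).re + (pr p 1).im * (pr v 1).im)) ^ 2 +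
      (2 * ((pr p 1).re * -(pr v 1).im + (pr p 1).im * (pr v 1).re)) ^ 2 =
      2 * (2 * ((pr v 1).re ^ 2 + (pr v 1).im ^ 2)) * T (pr p) := by
    rw [T]; ring
  rcases (S_nonneg p).eq_or_lt with hS | hS
  · have hS1 (w : EN k) : S1 p w = 0 := Finset.sum_eq_zero fun j _ => by
      rw [S_zero hS.symm j]; simp
    rw [hS1, add_zero] at t1 t2
    have := levi a (by rw [← hS, neg_zero] at b; exact b) t1 t2 hk
    have h4 := S_nonneg v
    linarith
  · have := levic a hS b (eq_neg_of_add_eq_zero_left t1) (eq_neg_of_add_eq_zero_left t2) hk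
    rw [neg_sq, neg_sq] at this
    have h5 : ((S1 p v) ^ 2 + (S1 p (Complex.I • v)) ^ 2) / S p ≤ 4 * S v := by
      rw [div_le_iff₀ hS]
      linarith
    linarith

end Pool.Agent.HN4C
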