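import Pool.Agent.HN4C.B

set_option autoImplicit false
open Set Filter Topology Real Metric
open Complex (I)
open scoped ContDiff

namespace Pool.Agent.HN4C
open Pool.Agent.H.MP_4c8440_an

variable {k : ℕ}

/-- the point with first coordinates `z`, `w` and remaining coordinates `u` -/
def mk (z w : ℂ) (u : Fin k → ℂ) : EN k := Fin.cons z (Fin.cons w u)

lemma mk0 (z w : ℂ) (u : Fin k → ℂ) : mk z w u 0 = z := rfl
lemma mk1 (z w : ℂ) (u : Fin k → ℂ) : mk z w u 1 = w := rfl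
lemma mku (z w : ℂ) (u : Fin k → ℂ) (j : Fin k) : mk z w u j.succ.succ = u j := rfl
lemma uumk (z w : ℂ) (u : Fin k → ℂ) : uu (mk z w u) = u := rfl

lemma prmk (z w : ℂ) (u : Fin k → ℂ) : pr (mk z w u) = ![z, w] := by
  ext i; fin_cases i <;> rfl

lemma allN {P : Fin (k + 2) → Prop} (h0 : P 0) (h1 : P 1) (h : ∀ j : Fin k, P j.succ.succ) : ∀ i, P i :=
  Fin.cases h0 (Fin.cases h1 h)

lemma mk_eta (p : EN k) : mk (p 0) (p 1) (uu p) = p := funext (allN rfl rfl fun _ => rfl)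

noncomputable def SS (u : Fin k → ℂ) : ℝ := ∑ j, ‖u j‖ ^ 2

lemma S_eq (p : EN k) : S p = SS (uu p) := by
  refine Finset.sum_congr rfl fun j _ => ?_
  rw [Complex.sq_norm, Complex.normSq_apply]; ring

lemma SS_nonneg (u : Fin k → ℂ) : 0 ≤ SS u := Finset.sum_nonneg fun _ _ => by positivity

lemma SS_smul (c : ℂ) (u : Fin k → ℂ) : SS (fun j => c * u j) = ‖c‖ ^ 2 * SS u := by
  rw [SS, SS, Finset.mul_sum]
  exact Finset.sum_congr rfl fun j _ => by rw [norm_mul, mul_pow]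

lemma ρ0ge {p : E} (h : p ∈ Ω) : -2 ≤ ρ0 p := by
  have h1 := (mem.1 h).2
  have h2 := bd h1.le
  have cs := cos_sq_add_sin_sq (π / 2 * log (T p))
  rw [ρ0, r] at *
  generalize cos (π / 2 * log (T p)) = C at *
  generalize sin (π / 2 * log (T p)) = S at *
  have n1 := (gn ((p 0).re ^ 2 + (p 0).im ^ 2 - 1)).1
  have n2 := sq_nonneg (g (T p + (T p)⁻¹ - 4))
  have : ((p 0).re * C + (p 0).im * S) ^ 2 ≤ (p 0).re ^ 2 + (p 0).im ^ 2 := by
    nlinarith [sq_nonneg ((p 0).im * C - (p 0).re * S)]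
  have k : (p 0).re * C + (p 0).im * S ≤ 2 := by nlinarith [h2.1]
  linarith

lemma ΩNb : Bornology.IsBounded (ΩN : Set (EN k)) := isBounded_iff_forall_norm_le.2 ⟨3, fun p hp => by
  have hq := prΩ hp
  have a := bd (mem.1 hq).2.le
  have b := (T7 (mem.1 hq).1 a.2.1).2
  have c := ρ0ge hq
  have d := (memN.1 hp).2
  rw [T] at b
  refine (pi_norm_le_iff_of_nonneg (by norm_num)).2 (allN ?_ ?_ fun j => ?_)
  · rw [← sq_le_sq₀ (norm_nonneg _) (by norm_num), Complex.sq_norm, Complex.normSq_apply]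
    simp only [pr0] at a
    linarith
  · rw [← sq_le_sq₀ (norm_nonneg _) (by norm_num), Complex.sq_norm, Complex.normSq_apply]
    simp only [pr1] at b
    linarith
  · rw [← sq_le_sq₀ (norm_nonneg _) (by norm_num)]
    have : ‖uu p j‖ ^ 2 ≤ S p := by
      rw [S_eq]
      exact Finset.single_le_sum (f := fun j => ‖uu p j‖ ^ 2) (fun _ _ => by positivity) (Finset.mem_univ j)
    rw [uu] at this
    linarith⟩

/-- parametrisation -/
noncomputable def ΦN (q : ((ℂ × ℝ) × (Fin k → ℂ)) × ℝ) : EN k :=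
  mk (Φ (q.1.1, q.2) 0) (Φ (q.1.1, q.2) 1) q.1.2

lemma prΦN (q : ((ℂ × ℝ) × (Fin k → ℂ)) × ℝ) : pr (ΦN q) = Φ (q.1.1, q.2) := by
  ext i; fin_cases i <;> rfl

lemma uuΦN (q : ((ℂ × ℝ) × (Fin k → ℂ)) × ℝ) : uu (ΦN q) = q.1.2 := rfl

lemma ΦNmem (q : ((ℂ × ℝ) × (Fin k → ℂ)) × ℝ) : ΦN q ∈ ΩN ↔
    -q.1.1.1.re + g (‖q.1.1.1‖ ^ 2 - 1) + g (rexp q.1.1.2 + rexp (-q.1.1.2) - 4) ^ 2 + SS q.1.2 < 0 := by
  rw [memN, prΦN, ΦT, Φρ, S_eq, uuΦN]
  exact and_iff_right (exp_pos _)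

lemma ΦNs (p : EN k) (h : p ∈ ΩN) : ∃ q, ΦN q = p := by
  obtain ⟨q, hq⟩ := Φs (prΩ h)
  refine ⟨((q.1, uu p), q.2), ?_⟩
  rw [ΦN]
  simp only
  have : ((q.1, q.2) : (ℂ × ℝ) × ℝ) = q := rfl
  rw [this, hq]
  exact mk_eta p

lemma ΩNc : IsConnected (ΩN : Set (EN k)) := by
  let L : ((ℂ × ℝ) × (Fin k → ℂ)) →ₗ[ℝ] (ℂ × ℝ) := LinearMap.fst ℝ (ℂ × ℝ) (Fin k → ℂ)
  have c1 : ConvexOn ℝ univ fun q : (ℂ × ℝ) × (Fin k → ℂ) => -q.1.1.re :=
    ((Complex.reLm.comp ((LinearMap.fst ℝ ℂ ℝ).comp L)).concaveOn convex_univ).neg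
  have c2 : ConvexOn ℝ univ fun q : (ℂ × ℝ) × (Fin k → ℂ) => g (‖q.1.1‖ ^ 2 - 1) := cc
    ((((convexOn_univ_norm.comp_linearMap ((LinearMap.fst ℝ ℂ ℝ).comp L)).pow (fun _ _ => norm_nonneg _) 2)).sub
      (concaveOn_const 1 convex_univ))
  have c3 : ConvexOn ℝ univ fun q : (ℂ × ℝ) × (Fin k → ℂ) => g (rexp q.1.2 + rexp (-q.1.2) - 4) := cc
    (((convexOn_exp.comp_linearMap ((LinearMap.snd ℝ ℂ ℝ).comp L)).add
      (convexOn_exp.comp_linearMap (-((LinearMap.snd ℝ ℂ ℝ).comp L)))).sub (concaveOn_const 4 convex_univ))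
  have c4 : ConvexOn ℝ univ fun q : (ℂ × ℝ) × (Fin k → ℂ) => SS q.2 := by
    have h1 : ∀ s : Finset (Fin k), ConvexOn ℝ univ fun q : (ℂ × ℝ) × (Fin k → ℂ) => ∑ j ∈ s, ‖q.2 j‖ ^ 2 := by
      intro s
      induction s using Finset.induction_on with
      | empty => simpa using convexOn_const (0 : ℝ) convex_univ
      | insert a s ha ih =>
        have h2 : ConvexOn ℝ univ fun q : (ℂ × ℝ) × (Fin k → ℂ) => ‖q.2 a‖ ^ 2 :=
          ((convexOn_univ_norm.comp_linearMap (((LinearMap.proj a : (Fin k → ℂ) →ₗ[ℝ] ℂ)).comp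
            (LinearMap.snd ℝ (ℂ × ℝ) (Fin k → ℂ)))).pow (fun _ _ => norm_nonneg _) 2)
        have h3 := h2.add ih
        refine h3.congr fun q _ => ?_
        simp [Finset.sum_insert ha]
    exact h1 Finset.univ
  have := ((((c1.add c2).add (c3.pow (fun _ _ => (gn _).1) 2)).add c4).convex_lt 0).prod (convex_univ (E := ℝ))
  have cΦ : Continuous (ΦN : ((ℂ × ℝ) × (Fin k → ℂ)) × ℝ → EN k) := by
    have c0 : Continuous Φ := by unfold Φ; fun_prop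
    have c5 : Continuous fun q : ((ℂ × ℝ) × (Fin k → ℂ)) × ℝ => Φ (q.1.1, q.2) := c0.comp (by fun_prop)
    refine continuous_pi (allN ?_ ?_ fun j => ?_)
    · change Continuous fun q : ((ℂ × ℝ) × (Fin k → ℂ)) × ℝ => Φ (q.1.1, q.2) 0
      exact (continuous_apply 0).comp c5
    · change Continuous fun q : ((ℂ × ℝ) × (Fin k → ℂ)) × ℝ => Φ (q.1.1, q.2) 1
      exact (continuous_apply 1).comp c5
    · change Continuous fun q : ((ℂ × ℝ) × (Fin k → ℂ)) × ℝ => q.1.2 j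
      fun_prop
  convert (this.isConnected ⟨(((1, 0), 0), 0), by
    simp [gz, SS, show (1 : ℝ) + 1 - 4 ≤ 0 by norm_num]⟩).image ΦN cΦ.continuousOn using 1
  ext p
  refine ⟨fun h => ?_, ?_⟩
  · obtain ⟨q, rfl⟩ := ΦNs p h
    exact ⟨q, ⟨⟨trivial, (ΦNmem q).1 h⟩, trivial⟩, rfl⟩
  · rintro ⟨q, hq, rfl⟩
    exact (ΦNmem q).2 hq.1.2

lemma z0N {p : EN k} (h : p ∈ ΩN) : p 0 ≠ 0 := z0 (prΩ h)

def VN : Set (EN k) := {p ∈ ΩN | (Complex.Gamma (2 - (p 0)⁻¹))⁻¹ = 0}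

lemma VlocN (p : EN k) (hp : p ∈ ΩN) : ∃ r > 0, ball p r ⊆ ΩN ∧ ∃ g : EN k → ℂ, DifferentiableOn ℂ g (ball p r) ∧
    (∃ z ∈ ball p r, g z ≠ 0) ∧ ∀ z ∈ ball p r, (z ∈ VN ↔ g z = 0) := by
  obtain ⟨r, r0, h⟩ := Metric.isOpen_iff.1 ΩNo p hp
  refine ⟨r, r0, h, fun p => (Complex.Gamma (2 - (p 0)⁻¹))⁻¹, fun q hq => (Complex.differentiable_one_div_Gamma _).comp_differentiableWithinAt q
    (DifferentiableAt.differentiableWithinAt (by have := z0N (h hq); fun_prop (disch := assumption))), ?_,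
    fun z hz => and_iff_right (h hz)⟩
  by_cases c : (p 0).im = 0
  · refine ⟨p + Pi.single 0 ((r / 2 : ℝ) * I), ?_, fun e => ?_⟩
    · rw [mem_ball_iff_norm, add_sub_cancel_left, Pi.norm_single]
      simp [r0, abs_of_pos r0]
    · obtain ⟨m, e⟩ := Vm.1 e
      have := congrArg Complex.im e
      rw [Complex.ofReal_im] at this
      simp [c, r0.ne'] at this
  · exact ⟨p, mem_ball_self r0, fun e => by obtain ⟨m, e⟩ := Vm.1 e; exact c (e ▸ Complex.ofReal_im _)⟩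

def ON : Set (EN k) := pr ⁻¹' O

lemma ONo : IsOpen (ON : Set (EN k)) := Oo.preimage prC

lemma VON : closure (VN : Set (EN k)) ⊆ ON := by
  refine (closure_minimal (t := pr ⁻¹' closure V) (fun p hp => subset_closure ⟨prΩ hp.1, hp.2⟩)
    (isClosed_closure.preimage prC)).trans fun p hp => VO hp

end Pool.Agent.HN4C
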