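import Pool.Agent.HN4C.C

set_option autoImplicit false
open Set Filter Topology Real Metric
open Complex (I)
open scoped ContDiff

namespace Pool.Agent.HN4C
open Pool.Agent.H.MP_4c8440_an

variable {k : ℕ}

lemma ΦNΩ {q : ((ℂ × ℝ) × (Fin k → ℂ)) × ℝ} (h : SS q.1.2 < q.1.1.1.re) (h1 : ‖q.1.1.1‖ ^ 2 ≤ 1)
    (h2 : rexp q.1.1.2 ^ 2 + 1 ≤ 4 * rexp q.1.1.2) : ΦN q ∈ ΩN := by
  rw [ΦNmem]
  have := exp_pos q.1.1.2
  rw [(gz (by linarith)).1, (gz (by rw [exp_neg, sub_nonpos]; field_simp; linarith)).1]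
  simp only [add_zero, ne_eq, OfNat.ofNat_ne_zero, not_false_eq_true, zero_pow]
  linarith

lemma ΦNO {q : ((ℂ × ℝ) × (Fin k → ℂ)) × ℝ} : ΦN q ∈ ON ↔ ‖q.1.1.1‖ ^ 2 < 1 ∧
    rexp q.1.1.2 ^ 2 + 1 < 4 * rexp q.1.1.2 := by
  change pr (ΦN q) ∈ O ↔ _
  rw [prΦN, ΦO]

lemma shilovN {f : EN k → ℂ} (df : DifferentiableOn ℂ f ΩN) {M m : ℝ} (hM : ∀ p ∈ ΩN, ‖f p‖ ≤ M)
    (hm : ∀ p ∈ ΩN, p ∉ ON → ‖f p‖ ≤ m) (p : EN k) (hp : p ∈ ΩN) (ho : p ∈ ON) : ‖f p‖ ≤ max m 0 := by
  obtain ⟨⟨⟨⟨ζ, s⟩, u⟩, θ⟩, rfl⟩ := ΦNs p hp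
  have h : SS u < ζ.re := by
    have h1 := (ΦNmem _).1 hp
    simp only at h1
    linarith [(gn (‖ζ‖ ^ 2 - 1)).1, sq_nonneg (g (rexp s + rexp (-s) - 4))]
  have hz : 0 < ζ.re := (SS_nonneg u).trans_lt h
  have n0 : 0 < ‖ζ‖ := norm_pos_iff.2 fun e => by simp [e] at hz
  set γ : ℂ → EN k := fun l => ΦN (((rexp (-(π * l.im)) * ζ, s + 2 * l.re),
    fun j => Complex.exp (π * I * l / 2) * u j), θ + l.im) with hγ
  have dγ : Differentiable ℂ γ := by
    have : γ = fun l => mk (Φ ((ζ, s), θ) 0 * Complex.exp (π * I * l)) (Φ ((ζ, s), θ) 1 * Complex.exp l)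
        (fun j => Complex.exp (π * I * l / 2) * u j) := by
      ext l i
      revert i
      refine allN ?_ ?_ fun j => rfl
      · conv_rhs => rw [← Complex.re_add_im l]
        simp only [γ, ΦN, mk0, Φ, Matrix.cons_val_zero, Complex.ofReal_exp, mul_comm _ ζ, mul_assoc,
          ← Complex.exp_add]
        congr 2; push_cast; linear_combination -π * l.im * Complex.I_sq
      · conv_rhs => rw [← Complex.re_add_im l]
        simp only [γ, ΦN, mk1, Φ, Matrix.cons_val_one, Matrix.cons_val_zero, Complex.ofReal_exp,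
          ← Complex.exp_add]
        congr 1; push_cast; ring
    rw [this]
    refine differentiable_pi.2 (allN ?_ ?_ fun j => ?_)
    · change Differentiable ℂ fun l => Φ ((ζ, s), θ) 0 * Complex.exp (π * I * l)
      fun_prop
    · change Differentiable ℂ fun l => Φ ((ζ, s), θ) 1 * Complex.exp l
      fun_prop
    · change Differentiable ℂ fun l => Complex.exp (π * I * l / 2) * u j
      fun_prop
  have nn (l : ℂ) : ‖rexp (-(π * l.im)) * ζ‖ = rexp (-(π * l.im)) * ‖ζ‖ := by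
    rw [norm_mul, Complex.norm_real, norm_of_nonneg (exp_pos _).le]
  have nu (l : ℂ) : SS (fun j => Complex.exp (π * I * l / 2) * u j) = rexp (-(π * l.im)) * SS u := by
    rw [SS_smul, Complex.norm_exp, ← exp_nat_mul]
    congr 2
    have : (π * I * l / 2 : ℂ) = (π / 2 : ℝ) * (I * l) := by push_cast; ring
    rw [this, Complex.re_ofReal_mul, Complex.I_mul_re]
    push_cast; ring
  have lo (l : ℂ) (a : ‖rexp (-(π * l.im)) * ζ‖ ^ 2 ≤ 1) : -l.im ≤ ‖ζ‖⁻¹ := by
    rw [sq_le_one_iff₀ (norm_nonneg _), nn, ← le_div_iff₀ n0, one_div] at a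
    have := add_one_le_exp (-(π * l.im))
    have := inv_pos.2 n0
    by_contra! c
    nlinarith [pi_gt_three]
  have γ0 : γ 0 = ΦN (((ζ, s), u), θ) := by
    simp [γ]
  have key (n : ℕ) : ‖f (γ 0)‖ ≤ max (max m 0 * rexp ((n + 1 : ℝ)⁻¹ * ‖ζ‖⁻¹)) (M * rexp (-(n + 1))) := by
    have n1 : (0 : ℝ) < n + 1 := by positivity
    set U := γ ⁻¹' ON ∩ {l | l.im < (n + 1) ^ 2}
    have cl : closure U ⊆ {l | γ l ∈ ΩN ∧ -l.im ≤ ‖ζ‖⁻¹ ∧ l.im ≤ (n + 1) ^ 2} := fun l hl => by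
      have := closure_minimal (t := {l : ℂ | ‖rexp (-(π * l.im)) * ζ‖ ^ 2 ≤ 1} ∩ ({l : ℂ | rexp (s + 2 * l.re) ^ 2 + 1 ≤
        4 * rexp (s + 2 * l.re)} ∩ {l | l.im ≤ (n + 1) ^ 2}))
        (fun l hl => by
          have := ΦNO.1 hl.1
          have b : l.im < (n + 1) ^ 2 := hl.2
          exact ⟨this.1.le, this.2.le, b.le⟩)
        ((isClosed_le (by fun_prop) continuous_const).inter ((isClosed_le (by fun_prop) (by fun_prop)).inter
          (isClosed_le (by fun_prop) continuous_const))) hl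
      exact ⟨ΦNΩ (by
        simp only
        rw [nu, Complex.re_ofReal_mul]
        exact mul_lt_mul_of_pos_left h (exp_pos _)) this.1 this.2.1, lo l this.1, this.2.2⟩
    have oU : IsOpen U := (ONo.preimage dγ.continuous).inter (isOpen_lt Complex.continuous_im continuous_const)
    have := Complex.norm_le_of_forall_mem_frontier_norm_le (U := U)
      (f := fun l => f (γ l) * Complex.exp (((n + 1 : ℝ)⁻¹ : ℝ) * l * I)) (isBounded_iff_forall_norm_le.2
        ⟨(|s| + 4) + (‖ζ‖⁻¹ + (n + 1) ^ 2), fun l hl => ?_⟩) (DifferentiableOn.diffContOnCl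
        ((df.comp dγ.differentiableOn fun l hl => (cl hl).1).mul (by fun_prop)))
      (C := max (max m 0 * rexp ((n + 1 : ℝ)⁻¹ * ‖ζ‖⁻¹)) (M * rexp (-(n + 1)))) (fun l hl => ?_) (z := 0)
      (subset_closure ⟨by rw [mem_preimage, γ0]; exact ho, by simpa using pow_pos n1 2⟩)
    · simpa using this
    · have a := (ΦNO.1 hl.1).2
      have b := cl (subset_closure hl)
      have c := add_one_le_exp (s + 2 * l.re)
      have d := add_one_le_exp (-(s + 2 * l.re))
      have e := exp_pos (s + 2 * l.re)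
      have k : rexp (-(s + 2 * l.re)) ≤ 4 := by
        rw [exp_neg, inv_le_comm₀ e four_pos]; simp only at a; nlinarith
      have k2 : rexp (s + 2 * l.re) ≤ 4 := by simp only at a; nlinarith
      have := inv_pos.2 n0
      refine (Complex.norm_le_abs_re_add_abs_im l).trans (add_le_add (abs_le.2 ⟨?_, ?_⟩) (abs_le.2 ⟨?_, ?_⟩)) <;>
        nlinarith [le_abs_self s, neg_abs_le s, b.2.1, b.2.2, sq_nonneg (n + 1 : ℝ), abs_nonneg s]
    · obtain ⟨a, b, c⟩ := cl hl.1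
      rw [norm_mul, Complex.norm_exp, Complex.mul_I_re, Complex.im_ofReal_mul, ← mul_neg]
      rcases c.eq_or_lt with c | c
      · refine le_max_of_le_right (mul_le_mul (hM _ a) (le_of_eq ?_) (exp_pos _).le ((norm_nonneg _).trans (hM _ a)))
        rw [c]; congr 1; field_simp
      · refine le_max_of_le_left (mul_le_mul ((hm _ a fun k => hl.2 (oU.interior_eq.symm ▸ ⟨k, c⟩)).trans
          (le_max_left _ _)) (by gcongr) (exp_pos _).le (le_max_right _ _))
  have t1 : Tendsto (fun n : ℕ => (n + 1 : ℝ)) atTop atTop := tendsto_natCast_atTop_atTop.atTop_add tendsto_const_nhds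
  have := ge_of_tendsto' ((((t1.inv_tendsto_atTop.mul_const ‖ζ‖⁻¹).rexp).const_mul (max m 0)).max
    ((tendsto_exp_neg_atTop_nhds_zero.comp t1).const_mul M)) key
  rw [γ0] at this
  simpa using this

lemma bdryN : IsClosed (closure (ΩN : Set (EN k)) \ ON) ∧ closure (ΩN : Set (EN k)) \ ON ⊆ closure ΩN ∧
    ∀ f : EN k → ℂ, ContinuousOn f (closure ΩN) →
    DifferentiableOn ℂ f ΩN → ∃ k ∈ closure ΩN \ ON, ∀ z ∈ closure ΩN, ‖f z‖ ≤ ‖f k‖ := by
  have c := ΩNb (k := k) |>.isCompact_closure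
  refine ⟨isClosed_closure.sdiff ONo, sdiff_subset, fun f cf df => ?_⟩
  obtain ⟨k, hk, h⟩ := (c.diff ONo).exists_isMaxOn ⟨ΦN (((1, 0), 0), 0), subset_closure (ΦNΩ
    (by simp [SS]) (by simp) (by norm_num)),
    fun h => by simpa using (ΦNO.1 h).1⟩ (cf.mono sdiff_subset).norm
  obtain ⟨M, hM⟩ := c.exists_bound_of_continuousOn cf
  refine ⟨k, hk, le_on_closure (fun p hp => ?_) cf.norm continuousOn_const⟩
  by_cases o : p ∈ ON
  · simpa using shilovN df (fun p hp => hM p (subset_closure hp)) (fun p hp o => h ⟨subset_closure hp, o⟩) p hp o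
  · exact h ⟨subset_closure hp, o⟩

lemma identN {U : Set (EN k)} (ho : IsOpen U) (hc : IsPreconnected U) {f : EN k → ℂ} (df : DifferentiableOn ℂ f U)
    {p : EN k} (hp : p ∈ U) (h : ∀ᶠ q in 𝓝 p, f q = 0) : ∀ q ∈ U, f q = 0 := fun q hq => by
  refine Eventually.self_of_nhds (p := fun x => f x = 0) (hc.subset_of_closure_inter_subset (u := {q | ∀ᶠ x in 𝓝 q, f x = 0})
    isOpen_setOfPred_eventually_nhds ⟨p, hp, h⟩ (fun a ha => ?_) hq)
  obtain ⟨r, r0, s⟩ := Metric.isOpen_iff.1 ho a ha.2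
  obtain ⟨b, hb, k⟩ := mem_closure_iff.1 ha.1 _ isOpen_ball (mem_ball_self r0)
  filter_upwards [ball_mem_nhds a r0] with x hx
  have cv : Convex ℝ ((fun l : ℂ => b + l • (x - b)) ⁻¹' ball a r) := fun u hu v hv s t s0 t0 e => by
    convert convex_ball a r hu hv s0 t0 e using 1
    rw [mem_preimage, show t = 1 - s by linarith]
    congr! 1
    simp only [← Complex.coe_smul, smul_eq_mul]; push_cast; module
  have := AnalyticOnNhd.eqOn_zero_of_preconnected_of_eventuallyEq_zero (f := fun l : ℂ => f (b + l • (x - b)))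
    ((df.comp (f := fun l : ℂ => b + l • (x - b)) (by fun_prop) fun l hl => s hl).analyticOnNhd (isOpen_ball.preimage (by fun_prop))) cv.isPreconnected
    (z₀ := 0) (show b + (0 : ℂ) • (x - b) ∈ ball a r by simpa) (Tendsto.eventually (Continuous.tendsto' (by fun_prop) _ _ (by simp)) k)
    (x := 1) (show b + (1 : ℂ) • (x - b) ∈ ball a r by simpa)
  simpa using this

lemma circN {z : ℂ} (θ : ℝ) (u : Fin k → ℂ) (h : SS u < z.re) (h1 : ‖z‖ ≤ 1) :
    mk z (Complex.exp (θ * I)) u ∈ ΩN := by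
  have := ΦNΩ (q := (((z, 0), u), θ)) h (pow_le_one₀ (norm_nonneg _) h1) (by norm_num)
  simpa [ΦN, Φ] using this

end Pool.Agent.HN4C
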