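import Pool.Agent.HN4C.D
import Pool.Graph.R_pool_sql_team_39128cda.H.MP_c109b8_an.A

set_option autoImplicit false
open Set Filter Topology Real Metric
open Complex (I)
open scoped ContDiff

namespace Pool.Agent.HN4C
open Pool.Agent.H.MP_4c8440_an

variable {k : ℕ}

lemma uniqN {f : EN k → ℂ} (df : DifferentiableOn ℂ f ΩN) {M : ℝ} (hM : ∀ p ∈ ΩN, ‖f p‖ ≤ M)
    (hV : ∀ v ∈ VN, f v = 0) : ∀ p ∈ ΩN, f p = 0 := by
  have dz (w : ℂ) (u : Fin k → ℂ) : Differentiable ℂ fun z : ℂ => (mk z w u : EN k) :=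
    differentiable_pi.2 (allN differentiable_id (differentiable_const _) fun j => differentiable_const _)
  have dw (z : ℂ) (u : Fin k → ℂ) : Differentiable ℂ fun w : ℂ => (mk z w u : EN k) :=
    differentiable_pi.2 (allN (differentiable_const _) differentiable_id fun j => differentiable_const _)
  have s1 (θ c : ℝ) (u : Fin k → ℂ) (c0 : 1 / 4 ≤ c) (c1 : c ≤ 1 / 2) (hu : 4 * SS u ≤ c) :
      f (mk c (Complex.exp (θ * I)) u) = 0 := by
    have dm : Differentiable ℂ fun v : ℂ => (mk (c * (1 + v)) (Complex.exp (θ * I)) (fun j => (1 + v) * u j) : EN k) := by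
      refine differentiable_pi.2 (allN ?_ ?_ fun j => ?_)
      · change Differentiable ℂ fun v : ℂ => (c : ℂ) * (1 + v)
        fun_prop
      · change Differentiable ℂ fun v : ℂ => Complex.exp (θ * I)
        fun_prop
      · change Differentiable ℂ fun v : ℂ => (1 + v) * u j
        fun_prop
    have m (v : ℂ) (hv : v ∈ ball (0 : ℂ) 1) :
        mk (c * (1 + v)) (Complex.exp (θ * I)) (fun j => (1 + v) * u j) ∈ (ΩN : Set (EN k)) := by
      have n := mem_ball_zero_iff.1 hv
      have := (abs_lt.1 ((Complex.abs_re_le_norm v).trans_lt n)).1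
      refine circN θ _ ?_ ?_
      · rw [SS_smul, Complex.re_ofReal_mul]
        have h1 : ‖1 + v‖ ^ 2 ≤ 2 * (1 + v.re) := by
          have h2 : ‖v‖ ^ 2 < 1 := by nlinarith [norm_nonneg v]
          rw [Complex.sq_norm, Complex.normSq_apply] at h2 ⊢
          simp only [Complex.add_re, Complex.one_re, Complex.add_im, Complex.one_im, zero_add]
          nlinarith
        have h3 : (1 + v).re = 1 + v.re := by simp
        rw [h3]
        have h4 := SS_nonneg u
        have h5 : 0 < 1 + v.re := by linarith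
        have h6 := mul_le_mul_of_nonneg_right h1 h4
        have h7 := mul_le_mul_of_nonneg_left hu h5.le
        have h8 : 0 < (1 + v.re) * c := mul_pos h5 (by linarith)
        nlinarith
      · have := norm_add_le 1 v
        rw [norm_mul, Complex.norm_real, norm_of_nonneg (by linarith)]
        rw [norm_one] at this
        nlinarith [norm_nonneg (1 + v)]
    have e0 : (mk (c * (1 + 0)) (Complex.exp (θ * I)) (fun j => (1 + 0) * u j) : EN k) =
        mk c (Complex.exp (θ * I)) u := by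
      simp
    by_contra kk
    rw [← e0] at kk
    have M0 : 0 < M := (norm_pos_iff.2 kk).trans_le (hM _ (m 0 (by simp)))
    obtain ⟨N, hN⟩ := ((tendsto_sum_range_one_div_nat_succ_atTop.atTop_div_const four_pos).eventually_gt_atTop
      (-log ‖f (mk (c * (1 + 0)) (Complex.exp (θ * I)) (fun j => (1 + 0) * u j)) / M‖)).exists
    have a (j : ℕ) : 0 < ((j + 2 : ℕ) + 2 : ℝ)⁻¹ / c ∧ ((j + 2 : ℕ) + 2 : ℝ)⁻¹ / c ≤ 1 ∧
        1 / (j + 1) / 4 ≤ ((j + 2 : ℕ) + 2 : ℝ)⁻¹ / c := by
      have := j.cast_nonneg (α := ℝ)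
      have : 0 < c := by linarith
      push_cast
      refine ⟨by positivity, ?_, ?_⟩ <;> field_simp <;> nlinarith
    have nr (j : ℕ) : ‖((((j + 2 : ℕ) + 2 : ℝ)⁻¹ / c - 1 : ℝ) : ℂ)‖ = 1 - ((j + 2 : ℕ) + 2 : ℝ)⁻¹ / c := by
      rw [Complex.norm_real, norm_eq_abs, abs_of_nonpos (by linarith [(a j).2.1]), neg_sub]
    have := Pool.Agent.H.MP_c109b8_an.blas_sum (fun v => f (mk (c * (1 + v)) (Complex.exp (θ * I)) (fun j => (1 + v) * u j)) / M)
      ((df.comp dm.differentiableOn m).div_const _)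
      (fun v hv => by rw [norm_div, Complex.norm_real, norm_of_nonneg M0.le, div_le_one M0]; exact hM _ (m v hv))
      (by simpa [M0.ne'] using kk) ((Finset.range N).image fun j => ((((j + 2 : ℕ) + 2 : ℝ)⁻¹ / c - 1 : ℝ) : ℂ)) (by
        simp only [Finset.forall_mem_image]
        intro j _
        have b : _ < (1 : ℝ) := (nr j).trans_lt (sub_lt_self _ (a j).1)
        refine ⟨b, div_eq_zero_iff.2 (.inl (hV _ ⟨m _ (mem_ball_zero_iff.2 b), Vm.2 ⟨j + 2, ?_⟩⟩))⟩
        have : (c : ℂ) ≠ 0 := Complex.ofReal_ne_zero.2 (by linarith)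
        simp only [mk0]; push_cast; field_simp; ring)
    rw [Finset.sum_image fun i _ j _ e => by simpa [show c ≠ 0 by linarith] using Complex.ofReal_injective e] at this
    refine (hN.trans_le ?_).not_ge this
    rw [Finset.sum_div]
    exact Finset.sum_le_sum fun j _ => by rw [nr]; linarith [(a j).2.2]
  have p0 : (mk (1 / 4 : ℝ) 1 0 : EN k) ∈ ΩN := by
    simpa using circN (k := k) (z := (1 / 4 : ℝ)) 0 0 (by simp [SS]) (by norm_num)
  obtain ⟨r', r0', hr'⟩ := Metric.isOpen_iff.1 ΩNo _ p0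
  set r : ℝ := min r' (1 / (4 * (k + 1))) with hrdef
  have hk1 : (0 : ℝ) < 4 * (k + 1) := by positivity
  have r0 : 0 < r := lt_min r0' (by positivity)
  have hr : ball (mk (1 / 4 : ℝ) 1 0 : EN k) r ⊆ ΩN := (ball_subset_ball (min_le_left _ _)).trans hr'
  have hSS (u : Fin k → ℂ) (hu : ∀ j, ‖u j‖ < r) : 4 * SS u ≤ 1 / 4 := by
    have h1 : SS u ≤ ∑ _j : Fin k, r ^ 2 := Finset.sum_le_sum fun j _ =>
      pow_le_pow_left₀ (norm_nonneg _) (hu j).le 2
    rw [Finset.sum_const, Finset.card_univ, Fintype.card_fin, nsmul_eq_mul] at h1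
    have h2 : r ≤ 1 / (4 * (k + 1)) := min_le_right _ _
    have h3 : r ^ 2 ≤ (1 / (4 * ((k : ℝ) + 1))) ^ 2 := pow_le_pow_left₀ r0.le h2 2
    have h4 : (k : ℝ) * (1 / (4 * ((k : ℝ) + 1))) ^ 2 ≤ 1 / 16 := by
      rw [div_pow, one_pow, mul_one_div, div_le_div_iff₀ (by positivity) (by norm_num)]
      nlinarith [k.cast_nonneg (α := ℝ)]
    have h5 := mul_le_mul_of_nonneg_left h3 (k.cast_nonneg (α := ℝ))
    linarith
  have bl (z w : ℂ) (u : Fin k → ℂ) (hz : z ∈ ball ((1 / 4 : ℝ) : ℂ) r) (hw : w ∈ ball 1 r) (hu : ∀ j, ‖u j‖ < r) :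
      (mk z w u : EN k) ∈ ΩN :=
    hr ((dist_pi_lt_iff r0).2 (allN hz hw fun j => by
      rw [mku, mku, Pi.zero_apply, dist_zero_right]; exact hu j))
  refine identN ΩNo ΩNc.isPreconnected df p0 (mem_of_superset (ball_mem_nhds _ r0) fun q hq => ?_)
  have hq := (dist_pi_lt_iff r0).1 hq
  have hu : ∀ j, ‖uu q j‖ < r := fun j => by
    have := hq j.succ.succ
    rw [mku, Pi.zero_apply, dist_zero_right] at this
    exact this
  have := zero1 r0 (df.comp (dw (q 0) (uu q)).differentiableOn fun w hw => bl _ w _ (hq 0) hw hu)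
    (γ := fun t => Complex.exp (t * I)) (by fun_prop) (by simp) ?_ (q 1) (hq 1)
  · rw [← mk_eta q]; exact this
  have t : Tendsto (fun t : ℝ => Complex.exp (t * I)) (𝓝[>] 0) (𝓝 1) :=
    (Continuous.tendsto' (by fun_prop) _ _ (by simp)).mono_left nhdsWithin_le_nhds
  filter_upwards [Ioo_mem_nhdsGT pi_pos, t.eventually (ball_mem_nhds _ r0)] with t ht hw
  refine ⟨fun e => (sin_pos_of_pos_of_lt_pi ht.1 ht.2).ne' (by
    simpa [Complex.exp_ofReal_mul_I_im] using congrArg Complex.im e), zero1 r0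
    (df.comp (dz _ (uu q)).differentiableOn fun z hz => bl z _ _ hz hw hu) (γ := fun s => (1 / 4 + s : ℝ)) (by fun_prop) (by simp) ?_
    (q 0) (hq 0)⟩
  filter_upwards [Ioo_mem_nhdsGT (show (0 : ℝ) < 1 / 4 by norm_num)] with s hs
  exact ⟨fun e => hs.1.ne' (by linarith [Complex.ofReal_injective e]), s1 t _ _ (by linarith [hs.1])
    (by linarith [hs.2]) ((hSS _ hu).trans (by linarith [hs.1]))⟩

end Pool.Agent.HN4C
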